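import Pool.Agent.NH71.DC.Chf
import Pool.Agent.NH71.DC.Llt
import Pool.Agent.NH71.DC.Main
import Pool.Agent.NH71.DC.Rho

/-!
# Diameter of the critical directed configuration model

Under the assumptions 1-4 of the problem, `n ^ (-1/3) Diam` is tight if and only if the law of
`(D⁻, D⁺)` is nondegenerate: `P(D⁻ ≥ 1, D⁺ ≥ 2) > 0` and `P(D⁻ ≥ 2, D⁺ ≥ 1) > 0`.
-/

set_option autoImplicit false

open MeasureTheory Filter Topology Pool.Agent.NH71.DC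

namespace Pool.Agent.Results.MP_269591_pr.TightIffNondeg

theorem result :
    (∀ ν : Measure (ℕ × ℕ), Hyp ν →
      (Tight ν ↔ Nondeg ν) ∧
      (¬ Nondeg ν → ∃ ε : ℝ, 0 < ε ∧ ∀ C : ℝ, ∃ N : ℕ, ∀ n ≥ N,
        ENNReal.ofReal ε ≤ PG ν n (C * (n : ℝ) ^ (1 / 3 : ℝ))) ∧
      Tendsto (fun n => PB ν n {d | ∃ A : SD n, HasDeg A d}) atTop (𝓝 1)) ∧
    (∃ ν : Measure (ℕ × ℕ), Hyp ν ∧ Nondeg ν) ∧
    ∃ ν : Measure (ℕ × ℕ), Hyp ν ∧ ¬ Nondeg ν :=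
  main s_chf s_llt s_rho

end Pool.Agent.Results.MP_269591_pr.TightIffNondeg
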